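import Pool.Agent.Helper94.BC.Tree
import Pool.Agent.Helper94.BC.Count
import Pool.Agent.Helper94.BC.Cent

/-!
# BC, power version, step (e): from one short element to `2 ^ k` elements
-/

set_option autoImplicit false

open scoped Pointwise commutatorElement

namespace Pool.Agent.Helper83.BCP

open Pool.Agent.Helper94.BC

variable {G : Type} [Group G]

theorem comm_le_inf {E A C : Subgroup G} (hA : A ≤ E) (hC : C ≤ E) (hnA : Nor E A) (hnC : Nor E C) :
    ⁅A, C⁆ ≤ A ⊓ C := by
  rw [Subgroup.commutator_le]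
  intro a ha c hc
  refine ⟨?_, ?_⟩
  · have e : ⁅a, c⁆ = a * (c * a⁻¹ * c⁻¹) := by
      simp only [commutatorElement_def]; group
    rw [e]
    exact A.mul_mem ha (hnA c (hC hc) _ (A.inv_mem ha))
  · exact C.mul_mem (hnC a (hA ha) c hc) (C.inv_mem hc)

/-- A maximal non-abelian pair is prime for finite families. -/
theorem exists_le_of_inf {E L : Subgroup G} (hL : NM E L) {ι : Type} (s : Finset ι)
    (M : ι → Subgroup G) (hM : ∀ i, M i ≤ E ∧ Nor E (M i)) (h : E ⊓ (⨅ i ∈ s, M i) ≤ L) :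
    ∃ i ∈ s, M i ≤ L := by
  classical
  induction s using Finset.induction_on with
  | empty =>
    exfalso
    apply hL.nab
    refine (Subgroup.commutator_le_self E).trans (le_trans ?_ h)
    simp
  | insert a s ha ih =>
    have hn : Nor E (E ⊓ ⨅ i ∈ s, M i) := by
      intro g hg n hn
      refine ⟨nor_self E g hg n hn.1, ?_⟩
      have h2 : n ∈ ⨅ i ∈ s, M i := hn.2
      change g * n * g⁻¹ ∈ ⨅ i ∈ s, M i
      simp only [Subgroup.mem_iInf] at h2 ⊢
      exact fun i hi => (hM i).2 g hg n (h2 i hi)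
    have hc : ⁅M a, E ⊓ ⨅ i ∈ s, M i⁆ ≤ L := by
      refine (comm_le_inf (hM a).1 inf_le_left (hM a).2 hn).trans (le_trans ?_ h)
      rw [Finset.iInf_insert]
      exact le_inf (inf_le_right.trans inf_le_left)
        (le_inf inf_le_left (inf_le_right.trans inf_le_right))
    rcases hL.prime (hM a).1 inf_le_left (hM a).2 hn hc with h1 | h1
    · exact ⟨a, Finset.mem_insert_self a s, h1⟩
    · obtain ⟨i, hi, hi2⟩ := ih h1
      exact ⟨i, Finset.mem_insert_of_mem hi, hi2⟩

/-- Every right coset of a subgroup of finite index meets the ball whose radius is the index. -/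
theorem coset_ball [Finite G] {S : Set G} (hS : Subgroup.closure S = ⊤) (D : Subgroup G) (g : G) :
    ∃ u ∈ D, u * g ∈ Bl S D.index := by
  classical
  -- the set of cosets met by the ball of radius `r`
  let f : G → G ⧸ D := fun x => (QuotientGroup.mk x⁻¹ : G ⧸ D)
  let W : ℕ → Set (G ⧸ D) := fun r => f '' (Bl S r)
  have hWmono : ∀ r, W r ⊆ W (r + 1) := fun r => Set.image_mono (bl_mono S (Nat.le_succ r))
  have hstab : ∀ r, W r = W (r + 1) → W r = Set.univ := by
    intro r hr
    have hstep : ∀ q ∈ W r, ∀ s ∈ (({1} : Set G) ∪ S ∪ S⁻¹), ∀ z : G, f z = q →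
        f (z * s) ∈ W r := by
      intro q hq s hs z hz
      obtain ⟨x, hx, hxq⟩ := hq
      rw [hr]
      refine ⟨x * s, ?_, ?_⟩
      · rw [bl_add]
        refine Set.mul_mem_mul hx ?_
        rw [Bl, pow_one]
        exact hs
      · have h1 : f x = f z := by rw [hxq, hz]
        simp only [f] at h1 ⊢
        rw [QuotientGroup.eq] at h1 ⊢
        have e : ((x * s)⁻¹)⁻¹ * (z * s)⁻¹ = (x⁻¹)⁻¹ * z⁻¹ := by group
        rw [e]
        exact h1
    have hall : ∀ z : G, f z ∈ W r := by
      intro z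
      have hz : z ∈ Subgroup.closure S := by rw [hS]; exact Subgroup.mem_top z
      induction hz using Subgroup.closure_induction_right with
      | one => exact ⟨1, one_mem_bl S r, rfl⟩
      | mul_right x hx t ht ih => exact hstep _ ih t (Or.inl (Or.inr ht)) x rfl
      | mul_inv_cancel x hx t ht ih =>
        exact hstep _ ih t⁻¹ (Or.inr (by rwa [Set.mem_inv, inv_inv])) x rfl
    rw [Set.eq_univ_iff_forall]
    intro q
    obtain ⟨z, rfl⟩ := QuotientGroup.mk_surjective q
    have := hall z⁻¹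
    simpa [f] using this
  have hcard : ∀ r, W r = Set.univ ∨ r + 1 ≤ (W r).ncard := by
    intro r
    induction r with
    | zero =>
      right
      have : (W 0).Nonempty := ⟨f 1, 1, one_mem_bl S 0, rfl⟩
      have := (Set.ncard_pos (Set.toFinite (W 0))).2 this
      omega
    | succ r ih =>
      rcases ih with ih | ih
      · left
        rw [Set.eq_univ_iff_forall] at ih ⊢
        exact fun q => hWmono r (ih q)
      · by_cases he : W r = W (r + 1)
        · left
          rw [← he]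
          exact hstab r he
        · right
          have h1 : W r ⊂ W (r + 1) := (hWmono r).ssubset_of_ne he
          have := Set.ncard_lt_ncard h1 (Set.toFinite _)
          omega
  have huniv : W D.index = Set.univ := by
    rcases hcard D.index with h | h
    · exact h
    · exfalso
      have h1 : (W D.index).ncard ≤ Nat.card (G ⧸ D) := by
        rw [← Set.ncard_univ]
        exact Set.ncard_le_ncard (Set.subset_univ _) (Set.toFinite _)
      rw [← Subgroup.index] at h1
      omega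
  have hg : f g ∈ W D.index := by rw [huniv]; exact Set.mem_univ _
  obtain ⟨x, hx, hxg⟩ := hg
  refine ⟨x * g⁻¹, ?_, by simpa using hx⟩
  simp only [f] at hxg
  rw [QuotientGroup.eq] at hxg
  simpa using hxg

/-- conjugates of the members of the family are members -/
theorem conj_family {N E : Subgroup G} (hN : N.Normal) (hE : E.Normal)
    {k : ℕ} (M : Fin k → Subgroup G) (hM : ∀ i, NM E (M i)) (hinf : (⨅ i, M i) = N) (g : G)
    (i : Fin k) : ∃ j, (M i).map (MulAut.conj g).toMonoidHom = M j := by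
  have h1 : NM E ((M i).map (MulAut.conj g).toMonoidHom) := by
    have := nm_map (MulAut.conj g) (hM i)
    rwa [nor_iff_map.1 (nor_of_normal ⊤ hE) g (Subgroup.mem_top g)] at this
  have h2 : N ≤ (M i).map (MulAut.conj g).toMonoidHom := by
    have h3 := Subgroup.map_mono (f := (MulAut.conj g).toMonoidHom)
      (hinf.symm.le.trans (iInf_le M i))
    rwa [nor_iff_map.1 (nor_of_normal ⊤ hN) g (Subgroup.mem_top g)] at h3
  obtain ⟨j, _, hj⟩ := exists_le_of_inf h1 Finset.univ M (fun i => ⟨(hM i).le, (hM i).nor⟩) (by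
    refine inf_le_right.trans (le_trans ?_ h2)
    rw [← hinf]
    exact le_iInf fun i => (iInf₂_le i (Finset.mem_univ i)))
  rcases (hM j).max _ hj h1.le h1.nor with h4 | h4
  · exact ⟨j, h4⟩
  · exfalso
    apply h1.nab
    rw [h4]
    exact Subgroup.commutator_le_self E

theorem nor_normalizer (M : Subgroup G) : Nor (Subgroup.normalizer (M : Set G)) M := by
  intro g hg n hn
  exact (Subgroup.mem_normalizer_iff.1 hg n).1 hn

theorem le_normalizer_of_nor {K M : Subgroup G} (h : Nor K M) :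
    K ≤ Subgroup.normalizer (M : Set G) := by
  intro g hg
  rw [Subgroup.mem_normalizer_iff]
  intro n
  constructor
  · exact fun hn => h g hg n hn
  · intro hn
    have := h g⁻¹ (K.inv_mem hg) _ hn
    have e : g⁻¹ * (g * n * g⁻¹) * g⁻¹⁻¹ = n := by group
    rwa [e] at this

/-- the number of conjugates is at most `k` -/
theorem normalizer_index {N E : Subgroup G} (hN : N.Normal) (hE : E.Normal)
    {k : ℕ} (M : Fin k → Subgroup G) (hM : ∀ i, NM E (M i)) (hinf : (⨅ i, M i) = N)
    (i : Fin k) : (Subgroup.normalizer (M i : Set G)).index ≤ k := by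
  choose f hf using fun g => conj_family hN hE M hM hinf g i
  have hinj : ∀ g h : G, f g = f h → g⁻¹ * h ∈ Subgroup.normalizer (M i : Set G) := by
    intro g h hgh
    have h1 : (M i).map (MulAut.conj g).toMonoidHom = (M i).map (MulAut.conj h).toMonoidHom := by
      rw [hf g, hf h, hgh]
    rw [Subgroup.mem_normalizer_iff]
    intro n
    have h2 : h * n * h⁻¹ ∈ (M i).map (MulAut.conj g).toMonoidHom ↔
        h * n * h⁻¹ ∈ (M i).map (MulAut.conj h).toMonoidHom := by rw [h1]
    rw [conj_map_mem, conj_map_mem] at h2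
    have e1 : h⁻¹ * (h * n * h⁻¹) * h = n := by group
    have e2 : g⁻¹ * (h * n * h⁻¹) * g = g⁻¹ * h * n * (g⁻¹ * h)⁻¹ := by group
    rw [e1, e2] at h2
    exact h2.symm
  have h3 : Function.Injective (fun q : G ⧸ Subgroup.normalizer (M i : Set G) =>
      f (Quotient.out q)) := by
    intro q r hqr
    have h4 := hinj _ _ hqr
    have h5 : (QuotientGroup.mk (Quotient.out q) : G ⧸ Subgroup.normalizer (M i : Set G)) =
        QuotientGroup.mk (Quotient.out r) := QuotientGroup.eq.2 h4
    rwa [QuotientGroup.out_eq', QuotientGroup.out_eq'] at h5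
  have h6 := Nat.card_le_card_of_injective _ h3
  rwa [Nat.card_eq_fintype_card (α := Fin k), Fintype.card_fin] at h6

/-- the centraliser of `E / M` in the normaliser of `M` -/
def FF (M E : Subgroup G) : Subgroup G := cen (Subgroup.normalizer (M : Set G)) M E (nor_normalizer M)

theorem FF_nor (M E : Subgroup G) (hE : E.Normal) : Nor (Subgroup.normalizer (M : Set G)) (FF M E) :=
  cen_nor (nor_normalizer M) (nor_of_normal _ hE)

theorem FF_le (M E : Subgroup G) : FF M E ≤ Subgroup.normalizer (M : Set G) := cen_le _ _ _ _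

theorem FF_index {N E : Subgroup G} [Finite G] (hN : N.Normal) (hE : E.Normal)
    {k B : ℕ} (M : Fin k → Subgroup G) (hM : ∀ i, NM E (M i)) (hinf : (⨅ i, M i) = N)
    (hB : ∀ i, (M i).relIndex E ≤ B) (i : Fin k) :
    (FF (M i) E).relIndex (Subgroup.normalizer (M i : Set G)) ≤ B ^ B ∧
      (FF (M i) E).index ≤ k * B ^ B := by
  have h0 : (M i).relIndex E ≠ 0 := Subgroup.index_ne_zero_of_finite
  obtain ⟨_, h2⟩ := cen_index (nor_normalizer (M i)) (nor_of_normal _ hE) (hM i).le
    (le_normalizer_of_nor (hM i).nor) h0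
  have h3 : (M i).relIndex E ^ (M i).relIndex E ≤ B ^ B := by
    calc (M i).relIndex E ^ (M i).relIndex E ≤ B ^ (M i).relIndex E := Nat.pow_le_pow_left (hB i) _
      _ ≤ B ^ B := Nat.pow_le_pow_right (lt_of_lt_of_le (Nat.pos_of_ne_zero h0) (hB i)) (hB i)
  have h4 : (FF (M i) E).relIndex (Subgroup.normalizer (M i : Set G)) ≤ B ^ B := h2.trans h3
  refine ⟨h4, ?_⟩
  have h5 := Subgroup.relIndex_mul_index (FF_le (M i) E)
  rw [← h5, mul_comm]
  exact Nat.mul_le_mul (normalizer_index hN hE M hM hinf i) h4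

/-- conjugates modulo two members of the family can be taken short -/
theorem short_conj [Finite G] {S : Set G} (hS : Subgroup.closure S = ⊤) {E : Subgroup G}
    (hE : E.Normal) {C : Subgroup G} (hC : C.Normal) (M M' : Subgroup G) (hM : Nor C M)
    (hM' : Nor C M') {y : G} (hy : y ∈ C) (g : G) : ∃ g' ∈ Bl S (FF M E ⊓ FF M' E).index,
      (g' * y * g'⁻¹)⁻¹ * (g * y * g⁻¹) ∈ FF M E ⊓ FF M' E := by
  obtain ⟨u, hu, hug⟩ := coset_ball hS (FF M E ⊓ FF M' E) g
  refine ⟨u * g, hug, ?_⟩
  have hz : (g * y * g⁻¹)⁻¹ ∈ C := C.inv_mem (hC.conj_mem y hy g)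
  have e : (u * g * y * (u * g)⁻¹)⁻¹ * (g * y * g⁻¹) =
      u * ((g * y * g⁻¹)⁻¹ * u⁻¹ * (g * y * g⁻¹)⁻¹⁻¹) := by group
  rw [e]
  refine Subgroup.mul_mem _ hu ⟨?_, ?_⟩
  · exact FF_nor M E hE _ (le_normalizer_of_nor hM hz) _ ((FF M E).inv_mem hu.1)
  · exact FF_nor M' E hE _ (le_normalizer_of_nor hM' hz) _ ((FF M' E).inv_mem hu.2)

/-- the chief factor is covered by the conjugates of an element which does not centralise it -/
theorem le_normalClosure {N E : Subgroup G} (hN : N.Normal) (hE : E.Normal) (hNE : N < E)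
    (hmin : ∀ L : Subgroup G, L.Normal → N ≤ L → L ≤ E → L = N ∨ L = E)
    {y : G} (hyE : ¬ ∀ e ∈ E, ⁅y, e⁆ ∈ N) : E ≤ Subgroup.normalClosure {y} ⊔ N := by
  have hnc : (Subgroup.normalClosure {y}).Normal := Subgroup.normalClosure_normal
  have h1 : ((Subgroup.normalClosure {y} ⊔ N) ⊓ E).Normal := inferInstance
  rcases hmin _ h1 (le_inf le_sup_right hNE.le) inf_le_right with h | h
  · exfalso
    apply hyE
    intro e he
    rw [← h]
    have hyn : y ∈ Subgroup.normalClosure {y} := Subgroup.subset_normalClosure rfl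
    refine ⟨Subgroup.mem_sup_left ?_, ?_⟩
    · have e1 : ⁅y, e⁆ = y * (e * y⁻¹ * e⁻¹) := by
        simp only [commutatorElement_def]; group
      rw [e1]
      exact Subgroup.mul_mem _ hyn (hnc.conj_mem _ (Subgroup.inv_mem _ hyn) e)
    · have e1 : ⁅y, e⁆ = (y * e * y⁻¹) * e⁻¹ := by
        simp only [commutatorElement_def]
      rw [e1]
      exact E.mul_mem (hE.conj_mem e he y) (E.inv_mem he)
  · rw [← h]
    exact inf_le_left

/-- the group generated by the short conjugates -/
def AA (S : Set G) (R : ℕ) (y : G) : Subgroup G :=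
  Subgroup.closure {x : G | ∃ g ∈ Bl S R, x = g * y * g⁻¹}

theorem AA_le (S : Set G) (R : ℕ) {y : G} {C : Subgroup G} (hC : C.Normal) (hy : y ∈ C) :
    AA S R y ≤ C := by
  rw [AA, Subgroup.closure_le]
  rintro _ ⟨g, _, rfl⟩
  exact hC.conj_mem y hy g

/-- the conjugates of `y` are products of short conjugates modulo two members -/
theorem approx {S : Set G} {R : ℕ} {C : Subgroup G} (hC : C.Normal) {D : Subgroup G}
    (hD : Nor C D) {y : G} (hy : y ∈ C)
    (hR : ∀ g : G, ∃ g' ∈ Bl S R, (g' * y * g'⁻¹)⁻¹ * (g * y * g⁻¹) ∈ D) {x : G}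
    (hx : x ∈ Subgroup.normalClosure {y}) : ∃ a ∈ AA S R y, a⁻¹ * x ∈ D := by
  rw [Subgroup.normalClosure] at hx
  induction hx using Subgroup.closure_induction with
  | mem x hx =>
    rw [Group.mem_conjugatesOfSet_iff] at hx
    obtain ⟨z, hz, hzx⟩ := hx
    rw [Set.mem_singleton_iff] at hz
    subst hz
    rw [isConj_iff] at hzx
    obtain ⟨g, rfl⟩ := hzx
    obtain ⟨g', hg', h⟩ := hR g
    exact ⟨g' * z * g'⁻¹, Subgroup.subset_closure ⟨g', hg', rfl⟩, h⟩
  | one => exact ⟨1, Subgroup.one_mem _, by simp⟩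
  | mul x x' _ _ ih ih' =>
    obtain ⟨a, ha, h⟩ := ih
    obtain ⟨a', ha', h'⟩ := ih'
    refine ⟨a * a', Subgroup.mul_mem _ ha ha', ?_⟩
    have e : (a * a')⁻¹ * (x * x') = (a'⁻¹ * (a⁻¹ * x) * a'⁻¹⁻¹) * (a'⁻¹ * x') := by group
    rw [e]
    exact D.mul_mem (hD _ (C.inv_mem (AA_le S R hC hy ha')) _ h) h'
  | inv x _ ih =>
    obtain ⟨a, ha, h⟩ := ih
    refine ⟨a⁻¹, Subgroup.inv_mem _ ha, ?_⟩
    have e : a⁻¹⁻¹ * x⁻¹ = a * (a⁻¹ * x)⁻¹ * a⁻¹ := by group
    rw [e]
    exact hD _ (AA_le S R hC hy ha) _ (D.inv_mem h)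

/-- Step (e): one short element outside of the centraliser gives `2 ^ k` elements. -/
theorem pow_count [Finite G] {S : Set G} (hS : Subgroup.closure S = ⊤)
    {N E : Subgroup G} (hN : N.Normal) (hE : E.Normal) (hNE : N < E)
    (hmin : ∀ L : Subgroup G, L.Normal → N ≤ L → L ≤ E → L = N ∨ L = E)
    {k B : ℕ} (M : Fin k → Subgroup G) {C : Subgroup G} (hC : C.Normal)
    (hinj : Function.Injective M) (hM : ∀ i, NM E (M i)) (hinf : (⨅ i, M i) = N)
    (hCM : ∀ i, Nor C (M i)) (hB : ∀ i, (M i).relIndex E ≤ B)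
    {y : G} (hyC : y ∈ C) (hyE : ¬ ∀ e ∈ E, ⁅y, e⁆ ∈ N) {l : ℕ} (hyl : y ∈ Bl S l) :
    2 ^ k ≤ Nat.card (Bl S (k * ((l + 2 * (k * B ^ B) ^ 2) * (12 * (B ^ B) ^ 2 * k ^ 2)))) := by
  classical
  set R : ℕ := (k * B ^ B) ^ 2 with hR
  set F : Fin k → Subgroup G := fun i => FF (M i) E with hF
  have hFidx : ∀ i j, (F i ⊓ F j).index ≤ R := by
    intro i j
    refine (Subgroup.index_inf_le).trans ?_
    rw [hR, pow_two]
    exact Nat.mul_le_mul (FF_index hN hE M hM hinf hB i).2 (FF_index hN hE M hM hinf hB j).2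
  set A : Subgroup G := AA S R y with hA
  have hAC : A ≤ C := AA_le S R hC hyC
  have hFn : ∀ i, Nor C (F i) := fun i =>
    nor_mono (le_normalizer_of_nor (hCM i)) (FF_nor (M i) E hE)
  have hNF : ∀ i, M i ≤ F i := fun i =>
    le_cen _ ((hM i).le.trans (le_normalizer_of_nor (hM i).nor)) (le_normalizer_of_nor (hM i).nor)
  have hFE : ∀ i, F i ⊓ E = M i := fun i =>
    cen_inf (hM i) (nor_normalizer (M i)) (le_normalizer_of_nor (hM i).nor)
  have hEN := le_normalClosure hN hE hNE hmin hyE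
  -- approximation of the elements of `E`
  have happ : ∀ i j, ∀ e ∈ E, ∃ a ∈ A, a⁻¹ * e ∈ F i ⊓ F j := by
    intro i j e he
    have he' := hEN he
    rw [Subgroup.mem_sup_of_normal_right] at he'
    obtain ⟨x, hx, n, hn, rfl⟩ := he'
    obtain ⟨a, ha, hax⟩ := approx (R := R) hC (nor_inf (hFn i) (hFn j)) hyC (fun g => by
      obtain ⟨g', hg', h⟩ := short_conj hS hE hC (M i) (M j) (hCM i) (hCM j) hyC g
      exact ⟨g', bl_mono S (hFidx i j) hg', h⟩) hx
    refine ⟨a, ha, ?_⟩
    rw [← mul_assoc]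
    refine Subgroup.mul_mem _ hax ⟨hNF i ?_, hNF j ?_⟩
    · exact (hinf.symm.le.trans (iInf_le M i)) hn
    · exact (hinf.symm.le.trans (iInf_le M j)) hn
  have hex : ∀ i, ∃ e ∈ E, e ∉ M i := by
    intro i
    by_contra hcon
    push Not at hcon
    exact (hM i).nab ((Subgroup.commutator_le_self E).trans hcon)
  have hnotle : ∀ i j, i ≠ j → ¬ M j ≤ M i := by
    intro i j hij hle
    rcases (hM j).max (M i) hle (hM i).le (hM i).nor with h | h
    · exact hij (hinj h)
    · apply (hM i).nab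
      rw [h]
      exact Subgroup.commutator_le_self E
  -- the family inside of `A`
  have htree : ∀ i : Fin k, ∃ z ∈ Bl ((Subtype.val : A → G) ⁻¹'
      {x : G | ∃ g ∈ Bl S R, x = g * y * g⁻¹}) (12 * (B ^ B) ^ 2 * Nat.card (Fin k) ^ 2),
      z ∉ (F i).subgroupOf A ∧ ∀ j, j ≠ i → z ∈ (F j).subgroupOf A := by
    refine tree _ ?_ (fun i => (F i).subgroupOf A) ?_ (B ^ B) ?_ ?_ ?_ ?_
    · exact Subgroup.closure_closure_coe_preimage
    · intro i
      refine ⟨fun n hn g => ?_⟩
      rw [Subgroup.mem_subgroupOf] at hn ⊢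
      exact hFn i _ (hAC g.2) _ hn
    · intro i
      refine ⟨Subgroup.index_ne_zero_of_finite, ?_⟩
      have h1 : (F i).relIndex A ≤ (F i).relIndex (Subgroup.normalizer (M i : Set G)) :=
        Subgroup.relIndex_le_of_le_right (hAC.trans (le_normalizer_of_nor (hCM i)))
          Subgroup.index_ne_zero_of_finite
      exact h1.trans (FF_index hN hE M hM hinf hB i).1
    · intro i h
      obtain ⟨e, he, heM⟩ := hex i
      obtain ⟨a, ha, hae⟩ := happ i i e he
      have h1 : (⟨a, ha⟩ : A) ∈ (F i).subgroupOf A := by rw [h]; exact Subgroup.mem_top _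
      rw [Subgroup.mem_subgroupOf] at h1
      apply heM
      rw [← hFE i]
      refine ⟨?_, he⟩
      have := (F i).mul_mem h1 hae.1
      simpa using this
    · intro i a b ha hb
      rw [Subgroup.mem_subgroupOf] at ha hb
      set C' : Subgroup G := A ⊔ E with hC'
      have hEC : E ≤ Subgroup.normalizer (M i : Set G) := le_normalizer_of_nor (hM i).nor
      have hC'n : C' ≤ Subgroup.normalizer (M i : Set G) :=
        sup_le (hAC.trans (le_normalizer_of_nor (hCM i))) hEC
      have hC'M : Nor C' (M i) := nor_mono hC'n (nor_normalizer (M i))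
      have hcen : ∀ x ∈ C', x ∉ F i → x ∉ cen C' (M i) E hC'M := by
        intro x hx hxF hc
        exact hxF ⟨hC'n hx, hc.2⟩
      obtain ⟨g, hg, hgc⟩ := cen_prime (hM i) hC'M (nor_of_normal _ hE) le_sup_right
        (a := (a : G)) (b := (b : G)) (Subgroup.mem_sup_left a.2) (Subgroup.mem_sup_left b.2)
        (hcen _ (Subgroup.mem_sup_left a.2) ha) (hcen _ (Subgroup.mem_sup_left b.2) hb)
      rw [hC', Subgroup.mem_sup_of_normal_right] at hg
      obtain ⟨a', ha', e, he, rfl⟩ := hg
      obtain ⟨a'', ha'', hae⟩ := happ i i e he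
      refine ⟨⟨a' * a'', A.mul_mem ha' ha''⟩, ?_⟩
      rw [Subgroup.mem_subgroupOf]
      intro hcon
      apply hgc
      refine ⟨?_, ?_⟩
      · have h1 : (a : G) ∈ C' := Subgroup.mem_sup_left a.2
        have h2 : a' * e * (b : G) * (a' * e)⁻¹ ∈ C' := by
          have h3 : a' * e ∈ C' := C'.mul_mem (Subgroup.mem_sup_left ha') (Subgroup.mem_sup_right he)
          exact C'.mul_mem (C'.mul_mem h3 (Subgroup.mem_sup_left b.2)) (C'.inv_mem h3)
        exact C'.mul_mem (C'.mul_mem (C'.mul_mem h1 h2) (C'.inv_mem h1)) (C'.inv_mem h2)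
      · -- the commutator lies in `F i`
        have hf : a''⁻¹ * e ∈ F i := hae.1
        set f : G := a''⁻¹ * e with hfdef
        have hψ : (a' * a'') * (f * ((b : G) * f⁻¹ * (b : G)⁻¹)) * (a' * a'')⁻¹ ∈ F i := by
          refine hFn i _ (hAC (A.mul_mem ha' ha'')) _ ?_
          exact (F i).mul_mem hf (hFn i _ (hAC b.2) _ ((F i).inv_mem hf))
        set ψ : G := (a' * a'') * (f * ((b : G) * f⁻¹ * (b : G)⁻¹)) * (a' * a'')⁻¹ with hψdef
        have e1 : a' * e * (b : G) * (a' * e)⁻¹ = ψ * ((a' * a'') * b * (a' * a'')⁻¹) := by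
          rw [hψdef, hfdef]
          group
        have e2 : ⁅(a : G), a' * e * (b : G) * (a' * e)⁻¹⁆ =
            ((a : G) * ψ * (a : G)⁻¹) * ⁅(a : G), (a' * a'') * (b : G) * (a' * a'')⁻¹⁆ * ψ⁻¹ := by
          rw [e1]
          simp only [commutatorElement_def]
          group
        have h5 : ⁅(a : G), a' * e * (b : G) * (a' * e)⁻¹⁆ ∈ F i := by
          rw [e2]
          refine (F i).mul_mem ((F i).mul_mem (hFn i _ (hAC a.2) _ hψ) ?_) ((F i).inv_mem hψ)
          simpa [commutatorElement_def] using hcon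
        exact h5.2
    · intro i j hij hle
      obtain ⟨e, he, heM⟩ := Set.not_subset.1 (hnotle i j hij)
      have heE : e ∈ E := (hM j).le he
      obtain ⟨a, ha, hae⟩ := happ i j e heE
      have h1 : a ∈ F j := by
        have h2 : a = e * (a⁻¹ * e)⁻¹ := by group
        rw [h2]
        exact (F j).mul_mem (hNF j he) ((F j).inv_mem hae.2)
      have h3 : (⟨a, ha⟩ : A) ∈ (F i).subgroupOf A := hle (by
        rw [Subgroup.mem_subgroupOf]; exact h1)
      rw [Subgroup.mem_subgroupOf] at h3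
      apply heM
      have h4 : e ∈ F i ⊓ E := by
        refine ⟨?_, heE⟩
        have := (F i).mul_mem h3 hae.1
        simpa using this
      rw [hFE i] at h4
      exact h4
  -- back to `G`
  refine count (Set.toFinite S) F _ (fun i => ?_)
  obtain ⟨z, hz, hzi, hzj⟩ := htree i
  refine ⟨z, ?_, ?_, ?_⟩
  · have h1 : (z : G) ∈ A.subtype '' (Bl ((Subtype.val : A → G) ⁻¹'
      {x : G | ∃ g ∈ Bl S R, x = g * y * g⁻¹}) (12 * (B ^ B) ^ 2 * Nat.card (Fin k) ^ 2)) :=
      ⟨z, hz, rfl⟩
    rw [image_bl] at h1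
    have h2 : A.subtype '' ((Subtype.val : A → G) ⁻¹' {x : G | ∃ g ∈ Bl S R, x = g * y * g⁻¹}) ⊆
        Bl S (l + 2 * R) := by
      rintro _ ⟨x, ⟨g, hg, hx⟩, rfl⟩
      change (x : G) ∈ _
      rw [hx]
      exact conj_mem_bl hg hyl
    have h3 := bl_trans h2 h1
    rwa [Nat.card_eq_fintype_card, Fintype.card_fin] at h3
  · intro h
    exact hzi (by rw [Subgroup.mem_subgroupOf]; exact h)
  · intro j hj
    have := hzj j hj
    rwa [Subgroup.mem_subgroupOf] at this

end Pool.Agent.Helper83.BCP
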