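import Pool.Agent.Helper94.BC.Pr
import Pool.Agent.Helper83.BCP.Leaf

set_option autoImplicit false

open scoped Pointwise commutatorElement

namespace Pool.Agent.Helper83.BCP

open Pool.Agent.Helper94.BC

/-- The end: a short non-trivial element of `C` gives `2 ^ k` short elements. -/
theorem final_elt (B : ℕ) : ∃ c : ℕ, 1 ≤ c ∧ ∀ (G : Type) [Group G] [Finite G] (S : Set G),
    Subgroup.closure S = ⊤ → ∀ (E : Subgroup G) (k : ℕ) (M : Fin k → Subgroup G)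
      (C : Subgroup G), Pr B E M C → ∀ (l : ℕ) (y : G), y ∈ C → y ≠ 1 → y ∈ Bl S l →
      2 ^ k ≤ Nat.card (Bl S ((c * k) ^ c * (l + 1))) := by
  refine ⟨36 * (B ^ B + 1) ^ 4 + 5, by omega, ?_⟩
  intro G _ _ S hS E k M C h l y hyC hy1 hyl
  have hk := h.pos
  have hNE : (⊥ : Subgroup G) < E := by
    rw [bot_lt_iff_ne_bot]
    intro h0
    apply h.nab
    rw [h0]
    exact Subgroup.commutator_le_self _
  have hyE : ¬ ∀ e ∈ E, ⁅y, e⁆ ∈ (⊥ : Subgroup G) := by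
    intro hcon
    apply hy1
    apply h.cent
    intro e he
    have h1 := hcon e he
    rw [Subgroup.mem_bot, commutatorElement_eq_one_iff_mul_comm] at h1
    exact h1
  have h1 := pow_count (N := ⊥) (E := E) hS inferInstance h.nE hNE
    (fun L hL _ hLE => h.min L hL hLE) M h.nC h.inj h.nm h.bot h.nor_C h.card hyC hyE hyl
  refine h1.trans (Nat.card_mono (bl_finite (Set.toFinite S) _) (bl_mono S ?_))
  set D := B ^ B with hD
  set c := 36 * (D + 1) ^ 4 + 5 with hc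
  have e1 : l + 2 * (k * D) ^ 2 ≤ (l + 1) * (2 * (k * (D + 1)) ^ 2 + 1) := by
    have h2 : (k * D) ^ 2 ≤ (k * (D + 1)) ^ 2 :=
      Nat.pow_le_pow_left (Nat.mul_le_mul_left _ (Nat.le_succ D)) 2
    nlinarith [Nat.zero_le (l * (2 * (k * (D + 1)) ^ 2))]
  have e2 : 2 * (k * (D + 1)) ^ 2 + 1 ≤ 3 * (k * (D + 1)) ^ 2 := by
    have h2 : 1 ≤ (k * (D + 1)) ^ 2 := Nat.one_le_pow _ _ (Nat.mul_pos hk (Nat.succ_pos D))
    omega
  have e3 : k * ((l + 2 * (k * D) ^ 2) * (12 * D ^ 2 * k ^ 2)) ≤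
      (l + 1) * (36 * (D + 1) ^ 4 * k ^ 5) := by
    calc k * ((l + 2 * (k * D) ^ 2) * (12 * D ^ 2 * k ^ 2))
        ≤ k * (((l + 1) * (3 * (k * (D + 1)) ^ 2)) * (12 * (D + 1) ^ 2 * k ^ 2)) := by
          refine Nat.mul_le_mul_left _ (Nat.mul_le_mul (e1.trans (Nat.mul_le_mul_left _ e2)) ?_)
          exact Nat.mul_le_mul_right _ (Nat.mul_le_mul_left _
            (Nat.pow_le_pow_left (Nat.le_succ D) 2))
      _ = (l + 1) * (36 * (D + 1) ^ 4 * k ^ 5) := by ring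
  have e4 : 36 * (D + 1) ^ 4 * k ^ 5 ≤ (c * k) ^ c := by
    have hc1 : 36 * (D + 1) ^ 4 ≤ c := by omega
    have hc5 : 5 ≤ c := by omega
    have hc0 : 1 ≤ c * k := Nat.mul_pos (by omega) hk
    calc 36 * (D + 1) ^ 4 * k ^ 5 ≤ c ^ 5 * k ^ 5 :=
          Nat.mul_le_mul_right _ (hc1.trans (Nat.le_self_pow (by norm_num) c))
      _ = (c * k) ^ 5 := (mul_pow c k 5).symm
      _ ≤ (c * k) ^ c := Nat.pow_le_pow_right hc0 hc5
  calc k * ((l + 2 * (k * D) ^ 2) * (12 * D ^ 2 * k ^ 2))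
      ≤ (l + 1) * (36 * (D + 1) ^ 4 * k ^ 5) := e3
    _ ≤ (l + 1) * (c * k) ^ c := Nat.mul_le_mul_left _ e4
    _ = (c * k) ^ c * (l + 1) := mul_comm _ _

end Pool.Agent.Helper83.BCP
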